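import Pool.Agent.Helper86.Poly.CookLevin

/-!
Functions computed by polynomial time stack machines are computed by polynomial time stack
programs: simulation of a machine by the cellular automaton of its rows.
-/

set_option autoImplicit false

namespace Pool.Agent.Helper87.OfTM2

open Turing Computability Pool.Agent.Helper86 Sim

/-! ### Tables -/

/-- Looking up a key in a table. -/
def lkp {β : Type} (tab : List (ℕ × β)) (d : β) (k : ℕ) : β :=
  ((tab.filter (fun u => decide (u.1 = k))).headD (0, d)).2

theorem lkp_spec {β : Type} (tab : List (ℕ × β)) (d : β) (k : ℕ) (v : β) (h : (k, v) ∈ tab)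
    (hu : ∀ u ∈ tab, u.1 = k → u.2 = v) : lkp tab d k = v := by
  unfold lkp
  cases hf : tab.filter (fun u => decide (u.1 = k)) with
  | nil =>
    have h1 : (k, v) ∈ tab.filter (fun u => decide (u.1 = k)) :=
      List.mem_filter.mpr ⟨h, by simp⟩
    rw [hf] at h1
    exact absurd h1 List.not_mem_nil
  | cons u l =>
    have h1 : u ∈ tab.filter (fun u => decide (u.1 = k)) := by
      rw [hf]
      exact List.mem_cons_self
    obtain ⟨h2, h3⟩ := List.mem_filter.mp h1
    exact hu u h2 (by simpa using h3)

theorem lkp_le (tab : List (ℕ × ℕ)) (k : ℕ) : lkp tab 0 k ≤ (tab.map (fun u => u.2)).sum := by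
  unfold lkp
  cases hf : tab.filter (fun u => decide (u.1 = k)) with
  | nil => exact Nat.zero_le _
  | cons u l =>
    have h1 : u ∈ tab.filter (fun u => decide (u.1 = k)) := by
      rw [hf]
      exact List.mem_cons_self
    obtain ⟨h2, -⟩ := List.mem_filter.mp h1
    exact List.single_le_sum (fun _ _ => Nat.zero_le _) _ (List.mem_map.mpr ⟨u, h2, rfl⟩)

theorem poly_lkp {α β : Type} [PT.TEnc α] [PT.TEnc β] (tab : List (ℕ × β)) (d : β) {k : α → ℕ}
    (hk : PT.Poly k) : PT.Poly (fun a => lkp tab d (k a)) := by
  unfold lkp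
  refine PT.Poly.snd (PT.Poly.headD ?_ (PT.Poly.const _))
  exact PT.Poly.filter (l := fun _ : α => tab) (f := fun a u => decide (u.1 = k a))
    (PT.Poly.const tab) (PT.Poly.eqNat (PT.Poly.fst (PT.Poly.snd PT.Poly.id))
      (hk.comp (PT.Poly.fst PT.Poly.id)))

/-! ### Steps on lists of codes -/

/-- One step of the automaton on lists. -/
def lstep (tab : List (ℕ × ℕ)) (l : List ℕ) : List ℕ :=
  (List.range l.length).map fun j => lkp tab 0
    (Nat.pair (Nat.pair (l.getD 0 0) (l.getD (j - 1) 0)) (Nat.pair (l.getD j 0) (l.getD (j + 1) 0)))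

theorem lstep_length (tab : List (ℕ × ℕ)) (l : List ℕ) : (lstep tab l).length = l.length := by
  simp [lstep]

theorem iter_length (tab : List (ℕ × ℕ)) (i : ℕ) (l : List ℕ) :
    ((lstep tab)^[i] l).length = l.length := by
  induction i with
  | zero => rfl
  | succ i ih => rw [Function.iterate_succ_apply', lstep_length, ih]

theorem iter_mem_le (tab : List (ℕ × ℕ)) (m i : ℕ) (l : List ℕ) (hl : ∀ x ∈ l, x ≤ m) :
    ∀ x ∈ (lstep tab)^[i] l, x ≤ m + (tab.map (fun u => u.2)).sum := by
  cases i with
  | zero =>
    intro x hx
    exact (hl x hx).trans (Nat.le_add_right _ _)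
  | succ i =>
    intro x hx
    rw [Function.iterate_succ_apply'] at hx
    obtain ⟨j, -, rfl⟩ := List.mem_map.mp hx
    exact (lkp_le _ _).trans (Nat.le_add_left _ _)

theorem poly_lstep (tab : List (ℕ × ℕ)) : PT.Poly (fun l : List ℕ => lstep tab l) := by
  unfold lstep
  refine PT.Poly.map (l := fun l : List ℕ => List.range l.length)
    (f := fun l j => lkp tab 0 (Nat.pair (Nat.pair (l.getD 0 0) (l.getD (j - 1) 0))
      (Nat.pair (l.getD j 0) (l.getD (j + 1) 0)))) (PT.Poly.range (PT.Poly.length PT.Poly.id)) ?_
  have hl : PT.Poly (fun p : List ℕ × ℕ => p.1) := PT.Poly.fst PT.Poly.id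
  have hj : PT.Poly (fun p : List ℕ × ℕ => p.2) := PT.Poly.snd PT.Poly.id
  have h0 : PT.Poly (fun _ : List ℕ × ℕ => 0) := PT.Poly.const 0
  exact poly_lkp tab 0 (PT.Poly.natPair
    (PT.Poly.natPair (PT.Poly.getD hl h0 h0) (PT.Poly.getD hl (PT.Poly.pred hj) h0))
    (PT.Poly.natPair (PT.Poly.getD hl hj h0) (PT.Poly.getD hl (PT.Poly.succ hj) h0)))

/-- The initial list. -/
def ini (start xt xf cb : ℕ) (q : Polynomial ℕ) (x : List Bool) : List ℕ :=
  start :: (x.map (fun b => bif b then xt else xf) ++ List.replicate (2 * q.eval x.length + 2) cb)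

/-- The function computed by the automaton. -/
def out (tab : List (ℕ × ℕ)) (otab : List (ℕ × List Bool)) (start xt xf cb : ℕ)
    (q : Polynomial ℕ) (x : List Bool) : List Bool :=
  (List.range (q.eval x.length + x.length + 1)).flatMap fun j =>
    lkp otab [] (((lstep tab)^[q.eval x.length] (ini start xt xf cb q x)).getD (j + 1) 0)

theorem poly_out (tab : List (ℕ × ℕ)) (otab : List (ℕ × List Bool)) (start xt xf cb : ℕ)
    (q : Polynomial ℕ) : PT.Poly (out tab otab start xt xf cb q) := by
  have hn : PT.Poly (fun x : List Bool => x.length) := PT.Poly.length PT.Poly.id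
  have hq : PT.Poly (fun x : List Bool => q.eval x.length) := PT.Poly.polyEval hn q
  have hini : PT.Poly (fun x : List Bool => ini start xt xf cb q x) := by
    unfold ini
    refine PT.Poly.cons (PT.Poly.const _) (PT.Poly.append (PT.Poly.map
      (f := fun _ b => bif b then xt else xf) PT.Poly.id
      (PT.Poly.cond (PT.Poly.snd PT.Poly.id) (PT.Poly.const _) (PT.Poly.const _)))
      (PT.Poly.replicate ?_ (PT.Poly.const _)))
    exact PT.Poly.succ (PT.Poly.succ (PT.Poly.mul (PT.Poly.const 2) hq))
  obtain ⟨b1, hb1, -, hb1'⟩ := hini.size_bound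
  have hiter : PT.Poly (fun x : List Bool =>
      (lstep tab)^[q.eval x.length] (ini start xt xf cb q x)) := by
    refine PT.Poly.natIter (n := fun x : List Bool => q.eval x.length)
      (g := fun x => ini start xt xf cb q x) (f := fun _ l => lstep tab l) hq hini
      ((poly_lstep tab).comp (PT.Poly.snd PT.Poly.id))
      (B := fun k => b1 k * (2 * (start + xt + xf + cb + (tab.map (fun u => u.2)).sum) + 1 + 1) + 1)
      ((hb1.mul (PT.PB.const _)).add (PT.PB.const 1)) ?_
    intro x i _
    refine PT.tsz_list_le ?_ ?_
    · rw [iter_length]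
      have h1 := PT.length_le_tsz (ini start xt xf cb q x)
      have h2 := hb1' x
      omega
    · intro c hc
      rw [PT.tsz_nat]
      have h1 := iter_mem_le tab (start + xt + xf + cb) i (ini start xt xf cb q x) (by
        intro y hy
        unfold ini at hy
        rcases List.mem_cons.mp hy with rfl | hy
        · omega
        · rcases List.mem_append.mp hy with hy | hy
          · obtain ⟨b, -, rfl⟩ := List.mem_map.mp hy
            cases b
            · show xf ≤ _
              omega
            · show xt ≤ _
              omega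
          · have := List.eq_of_mem_replicate hy
            omega) c hc
      omega
  unfold out
  refine PT.Poly.flatMap (l := fun x : List Bool => List.range (q.eval x.length + x.length + 1))
    (f := fun x j => lkp otab [] (((lstep tab)^[q.eval x.length]
      (ini start xt xf cb q x)).getD (j + 1) 0)) (PT.Poly.range (PT.Poly.succ (PT.Poly.add hq hn))) ?_
  exact poly_lkp otab [] (PT.Poly.getD (hiter.comp (PT.Poly.fst PT.Poly.id))
    (PT.Poly.succ (PT.Poly.snd PT.Poly.id)) (PT.Poly.const 0))

/-! ### The semantics -/

theorem flatMap_range_toList {τ : Type} (l : List τ) (R : ℕ) (h : l.length ≤ R) :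
    (List.range R).flatMap (fun j => (l[j]?).toList) = l := by
  induction l generalizing R with
  | nil =>
    simp
  | cons a l ih =>
    cases R with
    | zero => simp at h
    | succ R =>
      rw [List.range_succ_eq_map, List.flatMap_cons, List.flatMap_map]
      simp only [List.getElem?_cons_zero, Option.toList_some, List.getElem?_cons_succ]
      rw [ih R (by simpa using h)]
      rfl

section
variable {K : Type} {Γ : K → Type} {Λ σ : Type} [DecidableEq K]

theorem app_length (a : Act Γ) (S : ∀ k, List (Γ k)) (k : K) :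
    (a.app S k).length ≤ (S k).length + 1 := by
  cases a with
  | keep => exact Nat.le_succ _
  | pop k' =>
    simp only [Act.app]
    by_cases hk : k = k'
    · subst hk
      rw [Function.update_self, List.length_tail]
      omega
    · rw [Function.update_of_ne hk]
      omega
  | push k' b =>
    simp only [Act.app]
    by_cases hk : k = k'
    · subst hk
      rw [Function.update_self]
      exact le_refl _
    · rw [Function.update_of_ne hk]
      omega

theorem iter_stack_length (M : Λ → TM2.Stmt Γ Λ σ) (c : MCfg Γ Λ σ) (t : ℕ) (k : K) :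
    (((mstep M)^[t] c).2.2 k).length ≤ (c.2.2 k).length + t := by
  induction t with
  | zero => exact le_refl _
  | succ t ih =>
    rw [Function.iterate_succ_apply']
    refine (app_length _ _ k).trans ?_
    omega

end

theorem cone {C : Type} (rule : C → C → C → C → C) (F : Set C) (code : C → ℕ)
    (closed : ∀ g ∈ F, ∀ l ∈ F, ∀ c ∈ F, ∀ r ∈ F, rule g l c r ∈ F) (tab : List (ℕ × ℕ))
    (htab : ∀ g ∈ F, ∀ l ∈ F, ∀ c ∈ F, ∀ r ∈ F,
      lkp tab 0 (Nat.pair (Nat.pair (code g) (code l)) (Nat.pair (code c) (code r)))
        = code (rule g l c r))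
    (ρ : ℕ → C) (l : List ℕ) (hρ : ∀ j, ρ j ∈ F) (hl : ∀ j < l.length, l.getD j 0 = code (ρ j))
    (t : ℕ) : (∀ j, (PT.stepRow rule)^[t] ρ j ∈ F) ∧
      ∀ j, t + j < l.length →
        ((lstep tab)^[t] l).getD j 0 = code ((PT.stepRow rule)^[t] ρ j) := by
  induction t with
  | zero => exact ⟨hρ, fun j hj => hl j (by omega)⟩
  | succ t ih =>
    obtain ⟨ih1, ih2⟩ := ih
    refine ⟨fun j => ?_, fun j hj => ?_⟩
    · rw [Function.iterate_succ_apply']
      exact closed _ (ih1 _) _ (ih1 _) _ (ih1 _) _ (ih1 _)
    · rw [Function.iterate_succ_apply', Function.iterate_succ_apply']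
      have h1 : j < ((lstep tab)^[t] l).length := by
        rw [iter_length]
        omega
      have h2 : (lstep tab ((lstep tab)^[t] l)).getD j 0 = lkp tab 0
          (Nat.pair (Nat.pair (((lstep tab)^[t] l).getD 0 0) (((lstep tab)^[t] l).getD (j - 1) 0))
            (Nat.pair (((lstep tab)^[t] l).getD j 0) (((lstep tab)^[t] l).getD (j + 1) 0))) := by
        rw [List.getD_eq_getElem _ _ (by rw [lstep_length]; exact h1)]
        unfold lstep
        rw [List.getElem_map, List.getElem_range]
      rw [h2, ih2 0 (by omega), ih2 (j - 1) (by omega), ih2 j (by omega), ih2 (j + 1) (by omega),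
        htab _ (ih1 _) _ (ih1 _) _ (ih1 _) _ (ih1 _)]
      rfl

/-- A function computed by a polynomial time stack machine of Mathlib is computed by a polynomial
time stack program. -/
theorem poly_of_TM2 {α β : Type} {ea : α → List Bool} {eb : β → List Bool} {f : α → β}
    (h : TM2ComputableInPolyTime ea eb f) :
    ∃ F : List Bool → List Bool, PT.Poly F ∧ ∀ a, F (ea a) = eb (f a) := by
  classical
  let _ : DecidableEq h.tm.K := h.tm.kDecidableEq
  let _ : Fintype h.tm.K := h.tm.kFin
  let _ : Fintype h.tm.Λ := h.tm.ΛFin
  let _ : Fintype h.tm.σ := h.tm.σFin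
  let _ : Fintype (h.tm.Γ h.tm.k₀) := h.tm.Γk₀Fin
  obtain ⟨C, hC⟩ : ∃ C, ∀ l, ssz (h.tm.m l) ≤ C :=
    ⟨Finset.univ.sup fun l => ssz (h.tm.m l), fun l =>
      Finset.le_sup (f := fun l => ssz (h.tm.m l)) (Finset.mem_univ l)⟩
  set q : Polynomial ℕ := Polynomial.C C * h.time with hq
  have hqe : ∀ n, q.eval n = C * h.time.eval n := by
    intro n
    simp only [hq, Polynomial.eval_mul, Polynomial.eval_C]
  let one : Option (h.tm.Γ h.tm.k₀) → Cell h.tm.Γ h.tm.Λ h.tm.σ := fun a =>
    Sum.inr (Function.update (fun _ => none) h.tm.k₀ a)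
  let start : Cell h.tm.Γ h.tm.Λ h.tm.σ := Sum.inl (some (h.tm.m h.tm.main), h.tm.initialState)
  let sx : Bool → Cell h.tm.Γ h.tm.Λ h.tm.σ := fun b =>
    one (some (h.inputAlphabet.invFun b))
  have hone : ∀ a, one a ∈ cells h.tm.m h.tm.k₀ := by
    intro a k b hb
    by_cases hk : k = h.tm.k₀
    · exact Or.inr hk
    · change Function.update (fun _ => none) h.tm.k₀ a k = some b at hb
      rw [Function.update_of_ne hk] at hb
      exact absurd hb (by simp)
  set F : Set (Cell h.tm.Γ h.tm.Λ h.tm.σ) := cells h.tm.m h.tm.k₀ with hFdef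
  have hF : F.Finite := cells_finite h.tm.m h.tm.k₀ inferInstance
  have closed : ∀ g ∈ F, ∀ l ∈ F, ∀ c ∈ F, ∀ r ∈ F, rule h.tm.m g l c r ∈ F :=
    fun g hg l hl c hc r hr => rule_mem h.tm.m h.tm.k₀ hg hl hc hr
  obtain ⟨code, hcode⟩ : ∃ f : Cell h.tm.Γ h.tm.Λ h.tm.σ → ℕ, Set.InjOn f F :=
    Set.countable_iff_exists_injOn.mp hF.countable
  set LF : List (Cell h.tm.Γ h.tm.Λ h.tm.σ) := hF.toFinset.toList with hLF
  have hmem : ∀ c, c ∈ LF ↔ c ∈ F := by intro c; simp [hLF]
  set tab : List (ℕ × ℕ) :=
    LF.flatMap fun g => LF.flatMap fun l => LF.flatMap fun c => LF.map fun r =>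
      (Nat.pair (Nat.pair (code g) (code l)) (Nat.pair (code c) (code r)),
        code (rule h.tm.m g l c r)) with htabdef
  have htab : ∀ g ∈ F, ∀ l ∈ F, ∀ c ∈ F, ∀ r ∈ F,
      lkp tab 0 (Nat.pair (Nat.pair (code g) (code l)) (Nat.pair (code c) (code r)))
        = code (rule h.tm.m g l c r) := by
    intro g hg l hl c hc r hr
    refine lkp_spec _ _ _ _ ?_ ?_
    · simp only [htabdef, List.mem_flatMap, List.mem_map, hmem]
      exact ⟨g, hg, l, hl, c, hc, r, hr, rfl⟩
    · intro u hu he
      simp only [htabdef, List.mem_flatMap, List.mem_map, hmem] at hu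
      obtain ⟨g', hg', l', hl', c', hc', r', hr', rfl⟩ := hu
      simp only [Nat.pair_eq_pair] at he
      obtain ⟨⟨e1, e2⟩, e3, e4⟩ := he
      rw [hcode hg' hg e1, hcode hl' hl e2, hcode hc' hc e3, hcode hr' hr e4]
  set otab : List (ℕ × List Bool) :=
    LF.map fun c => (code c, (sym c h.tm.k₁).toList.map h.outputAlphabet) with hotabdef
  have hotab : ∀ c ∈ F, lkp otab [] (code c)
      = (sym c h.tm.k₁).toList.map h.outputAlphabet := by
    intro c hc
    refine lkp_spec _ _ _ _ ?_ ?_
    · exact List.mem_map.mpr ⟨c, (hmem c).mpr hc, rfl⟩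
    · intro u hu he
      obtain ⟨c', hc', rfl⟩ := List.mem_map.mp hu
      rw [hcode ((hmem c').mp hc') hc he]
  refine ⟨out tab otab (code start) (code (sx true)) (code (sx false)) (code (one none)) q,
    poly_out _ _ _ _ _ _ _, fun a => ?_⟩
  -- the initial row
  set x := ea a with hx
  set w : List (h.tm.Γ h.tm.k₀) := List.map h.inputAlphabet.invFun x with hw
  set T := q.eval x.length with hT
  have hrow0 : ∀ j, row (emb h.tm.m (initList h.tm w)) (j + 1) = one w[j]? := by
    intro j
    show Sum.inr (fun k => ((initList h.tm w).stk k)[j]?) = _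
    congr 1
    funext k
    by_cases hk : k = h.tm.k₀
    · subst hk
      rw [Function.update_self]
      have : (initList h.tm w).stk h.tm.k₀ = w := by
        simp [initList]
      rw [this]
    · rw [Function.update_of_ne hk]
      have : (initList h.tm w).stk k = [] := by
        simp [initList, hk]
      rw [this]
      rfl
  have hrowF : ∀ j, row (emb h.tm.m (initList h.tm w)) j ∈ F := by
    intro j
    cases j with
    | zero => exact stmts_label h.tm.m h.tm.main
    | succ j => rw [hrow0]; exact hone _
  have hlen : (ini (code start) (code (sx true)) (code (sx false)) (code (one none)) q x).length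
      = 2 * T + x.length + 3 := by
    simp only [ini, List.length_cons, List.length_append, List.length_map, List.length_replicate,
      ← hT]
    omega
  have hini : ∀ j < (ini (code start) (code (sx true)) (code (sx false)) (code (one none)) q
      x).length, (ini (code start) (code (sx true)) (code (sx false)) (code (one none)) q
      x).getD j 0 = code (row (emb h.tm.m (initList h.tm w)) j) := by
    intro j hj
    rw [hlen] at hj
    cases j with
    | zero => rfl
    | succ j =>
      rw [hrow0]
      unfold ini
      rw [List.getD_cons_succ]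
      by_cases h1 : j < x.length
      · rw [List.getD_append _ _ _ _ (by simpa using h1),
          List.getD_eq_getElem _ _ (by simpa using h1), List.getElem_map]
        have h2 : w[j]? = some (h.inputAlphabet.invFun x[j]) := by
          rw [hw, List.getElem?_map, List.getElem?_eq_getElem h1]
          rfl
        rw [h2]
        cases x[j] <;> rfl
      · rw [List.getD_append_right _ _ _ _ (by simpa using h1), List.length_map,
          List.getD_eq_getElem?_getD, List.getElem?_replicate, if_pos (by rw [← hT]; omega)]
        have h2 : w[j]? = none := by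
          rw [List.getElem?_eq_none]
          rw [hw, List.length_map]
          omega
        rw [h2]
        rfl
  obtain ⟨hcone1, hcone2⟩ := cone (rule h.tm.m) F code closed tab htab _ _ hrowF hini T
  -- the run
  have hrun := h.outputsFun a
  have hsteps := hrun.evals_in_steps
  have hle := hrun.steps_le_m
  have hTle : C * hrun.steps ≤ T := by
    rw [hT, hqe]
    exact Nat.mul_le_mul_left _ hle
  have hfin := sim_halt h.tm.m C hC hrun.steps (initList h.tm w) h.tm.initialState
    (haltList h.tm (List.map h.outputAlphabet.invFun (eb (f a)))).stk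
    hsteps T hTle
  set o : List (h.tm.Γ h.tm.k₁) := List.map h.outputAlphabet.invFun (eb (f a)) with ho
  have hstk : (haltList h.tm o).stk h.tm.k₁ = o := by
    simp [haltList]
  have holen : o.length ≤ x.length + T := by
    have h1 := iter_stack_length h.tm.m (emb h.tm.m (initList h.tm w)) T h.tm.k₁
    rw [hfin] at h1
    have h2 : ((haltList h.tm o).stk h.tm.k₁).length
        ≤ ((initList h.tm w).stk h.tm.k₁).length + T := h1
    rw [hstk] at h2
    have h3 : ((initList h.tm w).stk h.tm.k₁).length ≤ x.length := by
      by_cases hk : h.tm.k₁ = h.tm.k₀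
      · have h4 : ∀ k, k = h.tm.k₀ → ((initList h.tm w).stk k).length = x.length := by
          rintro k rfl
          have : (initList h.tm w).stk h.tm.k₀ = w := by
            simp [initList]
          rw [this, hw, List.length_map]
        exact (h4 _ hk).le
      · have : (initList h.tm w).stk h.tm.k₁ = [] := by
          simp [initList, hk]
        rw [this]
        exact Nat.zero_le _
    omega
  have hfin' := congrArg row hfin
  rw [row_iterate] at hfin'
  have hfinrow : ∀ j, sym ((PT.stepRow (rule h.tm.m))^[T]
      (row (emb h.tm.m (initList h.tm w))) (j + 1)) h.tm.k₁ = o[j]? := by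
    intro j
    have e3 : (PT.stepRow (rule h.tm.m))^[T] (row (emb h.tm.m (initList h.tm w)))
      = row (none, h.tm.initialState, (haltList h.tm o).stk) := hfin'
    rw [e3]
    show ((haltList h.tm o).stk h.tm.k₁)[j]? = _
    rw [hstk]
  unfold out
  rw [← hT]
  have hmain : ∀ j ∈ List.range (T + x.length + 1),
      lkp otab [] (((lstep tab)^[T] (ini (code start) (code (sx true)) (code (sx false))
        (code (one none)) q x)).getD (j + 1) 0) = ((eb (f a))[j]?).toList := by
    intro j hj
    rw [List.mem_range] at hj
    rw [hcone2 (j + 1) (by rw [hlen]; omega), hotab _ (hcone1 _), hfinrow, ho,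
      List.getElem?_map]
    cases (eb (f a))[j]? with
    | none => rfl
    | some b =>
      show [h.outputAlphabet (h.outputAlphabet.invFun b)] = [b]
      rw [show h.outputAlphabet (h.outputAlphabet.invFun b) = b from
        h.outputAlphabet.apply_symm_apply b]
  rw [List.flatMap_congr hmain]
  refine flatMap_range_toList _ _ ?_
  rw [ho, List.length_map] at holen
  omega

end Pool.Agent.Helper87.OfTM2
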