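import Pool.Agent.Helper7.Cog.Final
import Pool.Agent.Helper87.Cog.OfTM2

/-!
A polynomial time algorithm for one of the two Maker-Breaker domination numbers of cographs puts
every problem of NP into P.
-/

set_option autoImplicit false

namespace Pool.Agent.Helper87.Alg

open Turing Computability Pool.Agent.Helper86 Pool.Agent.Helper7.Cog

/-- The class P: `L` belongs to P when membership in `L` is computed by a polynomial time
machine. -/
def InP (L : Set (List Bool)) : Prop :=
  ∃ V : List Bool → Bool,
    Nonempty (TM2ComputableInPolyTime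
      (encodingList Bool).encode encodingBoolBool.encode V) ∧
    ∀ x : List Bool, x ∈ L ↔ V x = true

/-- Finite simple graphs on `{0, …, n-1}`. -/
abbrev Graph : Type := Σ n : ℕ, SimpleGraph (Fin n)

/-- The string `1^n 0` followed by the `n²` bits of the adjacency matrix. -/
noncomputable def graphBits (G : Graph) : List Bool :=
  List.replicate G.1 true ++ false :: Helper86.ZDom.adjBits G.2

/-- The string of a value: `0` for `⊤`, and `1` followed by the binary digits of `k` for the
natural number `k`. -/
noncomputable def valueBits (v : ℕ∞) : List Bool :=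
  if v = ⊤ then [false] else true :: encodeNat v.toNat

theorem valueBits_top : valueBits ⊤ = [false] := if_pos rfl

theorem valueBits_coe (k : ℕ) : valueBits (k : ℕ∞) = true :: encodeNat k := by
  unfold valueBits
  rw [if_neg (ENat.natCast_ne_top k), ENat.toNat_natCast]

/-! ### Reading a value -/

/-- Equality of strings. -/
def eqs (p q : List Bool) : Bool :=
  decide (p.length = q.length) &&
    (List.range p.length).all fun i => decide (p.getD i false = q.getD i false)

theorem eqs_iff (p q : List Bool) : eqs p q = true ↔ p = q := by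
  unfold eqs
  rw [Bool.and_eq_true, decide_eq_true_iff, List.all_eq_true]
  constructor
  · rintro ⟨h1, h2⟩
    refine List.ext_getElem h1 (fun i h3 h4 => ?_)
    have h5 := h2 i (List.mem_range.mpr h3)
    rw [decide_eq_true_iff, List.getD_eq_getElem _ _ h3, List.getD_eq_getElem _ _ h4] at h5
    exact h5
  · rintro rfl
    exact ⟨rfl, fun i _ => by simp⟩

theorem poly_eqs {α : Type} [PT.TEnc α] {f g : α → List Bool} (hf : PT.Poly f)
    (hg : PT.Poly g) : PT.Poly (fun a => eqs (f a) (g a)) := by
  unfold eqs
  refine PT.Poly.and (PT.Poly.eqNat (PT.Poly.length hf) (PT.Poly.length hg)) ?_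
  refine PT.Poly.all (l := fun a => List.range (f a).length)
    (f := fun a i => decide ((f a).getD i false = (g a).getD i false))
    (PT.Poly.range (PT.Poly.length hf)) ?_
  exact PT.Poly.beqBool
    (PT.Poly.getD (hf.comp (PT.Poly.fst PT.Poly.id)) (PT.Poly.snd PT.Poly.id) (PT.Poly.const _))
    (PT.Poly.getD (hg.comp (PT.Poly.fst PT.Poly.id)) (PT.Poly.snd PT.Poly.id) (PT.Poly.const _))

/-- The string is not the string of a number below `k`. -/
def atLeast (k : ℕ) (s : List Bool) : Bool :=
  (List.range k).all fun j => !(eqs s (true :: encodeNat j))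

theorem atLeast_iff (k : ℕ) (v : ℕ∞) : atLeast k (valueBits v) = true ↔ (k : ℕ∞) ≤ v := by
  unfold atLeast
  rw [List.all_eq_true]
  have h1 : ∀ j : ℕ, (!(eqs (valueBits v) (true :: encodeNat j))) = true ↔
      valueBits v ≠ true :: encodeNat j := by
    intro j
    rw [Bool.not_eq_true', Bool.eq_false_iff, ne_eq, eqs_iff]
  simp only [h1, List.mem_range]
  induction v using ENat.recTopCoe with
  | top =>
    refine ⟨fun _ => le_top, fun _ j _ => ?_⟩
    rw [valueBits_top]
    simp
  | coe m =>
    rw [valueBits_coe, Nat.cast_le]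
    constructor
    · intro h
      by_contra hc
      exact h m (not_le.mp hc) rfl
    · intro h j hj he
      have h2 : encodeNat m = encodeNat j := (List.cons.inj he).2
      have h3 := congrArg decodeNat h2
      rw [decode_encodeNat, decode_encodeNat] at h3
      omega

theorem poly_atLeast {α : Type} [PT.TEnc α] {k : α → ℕ} {s : α → List Bool} (hk : PT.Poly k)
    (hs : PT.Poly s) : PT.Poly (fun a => atLeast (k a) (s a)) := by
  unfold atLeast
  refine PT.Poly.all (l := fun a => List.range (k a))
    (f := fun a j => !(eqs (s a) (true :: encodeNat j))) (PT.Poly.range hk) ?_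
  exact PT.Poly.not (poly_eqs (hs.comp (PT.Poly.fst PT.Poly.id))
    (PT.Poly.cons (PT.Poly.const true) (PT.Poly.encodeNat (PT.Poly.snd PT.Poly.id))))

/-! ### The graphs of the reduction -/

/-- The string of the graph of a forest. -/
def gstring (F : List L) : List Bool :=
  List.replicate (verts F).length true ++ false :: gbits F

theorem poly_gstring {α : Type} [PT.TEnc α] {F : α → List L} (hF : PT.Poly F) :
    PT.Poly (fun a => gstring (F a)) :=
  PT.Poly.append (PT.Poly.replicate (PT.Poly.length (poly_verts hF)) (PT.Poly.const true))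
    (PT.Poly.cons (PT.Poly.const false) (poly_gbits hF))

/-- The graph of a forest. -/
def fgr (F : List L) : Graph := ⟨(verts F).length, gr F⟩

theorem bits_fgr (F : List L) : graphBits (fgr F) = gstring F := by
  have h := bits_finst F 0
  unfold Inst.bits istring at h
  have h1 := (List.cons.inj (List.append_cancel_left h)).2
  have h2 : Helper86.ZDom.adjBits (gr F) = gbits F := List.append_cancel_right h1
  unfold graphBits gstring
  show List.replicate (verts F).length true ++ false :: Helper86.ZDom.adjBits (gr F) = _
  rw [h2]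

/-! ### The consequences -/

/-- The number `g` of the graphs in `P` is computable in polynomial time: there is a polynomial time
machine that outputs `g G` on every input `G` in `P`.  Nothing is asked on other inputs. -/
def PolyTimeOn (P : Set Graph) (g : Graph → ℕ∞) : Prop :=
  Nonempty (TM2ComputableInPolyTime (fun G : P => graphBits G.1) valueBits (fun G : P => g G.1))

theorem inP_of {P : Set Graph} {g : Graph → ℕ∞} (h : PolyTimeOn P g)
    (F : List (List (Bool × ℕ)) → List L) (k : List (List (Bool × ℕ)) → ℕ) (hF : PT.Poly F)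
    (hk : PT.Poly k) (hFP : ∀ φ, fgr (F φ) ∈ P)
    (hP : ∀ φ, PT.Sat φ ↔ (k φ : ℕ∞) ≤ g (fgr (F φ)))
    (L : Set (List Bool)) (hL : NP.InNP L) : InP L := by
  obtain ⟨h⟩ := h
  obtain ⟨A, hA, hA'⟩ := OfTM2.poly_of_TM2 h
  obtain ⟨Φ, hΦ, hΦ'⟩ := NP.cook_levin hL
  set V : List Bool → Bool := fun x => atLeast (k (Φ x)) (A (gstring (F (Φ x)))) with hV
  have hVp : PT.Poly V :=
    poly_atLeast (hk.comp hΦ) (hA.comp (poly_gstring (hF.comp hΦ)))
  refine ⟨V, ?_, fun x => ?_⟩
  · refine PT.Poly.toTM2 (F := fun x => [V x]) (PT.Poly.cons hVp (PT.Poly.const [])) (fun x => ?_)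
    rfl
  · rw [hΦ', hP, hV]
    show _ ↔ atLeast (k (Φ x)) (A (gstring (F (Φ x)))) = true
    have h1 : A (gstring (F (Φ x))) = valueBits (g (fgr (F (Φ x)))) := by
      rw [← bits_fgr]
      exact hA' ⟨_, hFP (Φ x)⟩
    rw [h1, atLeast_iff]

/-- A polynomial time algorithm for `γ_MB'` of cographs puts NP into P. -/
theorem alg_S (h : PolyTimeOn {G | Small G.2 ∧ gammaMBS G.2 ≠ ⊤} (fun G => gammaMBS G.2)) :
    ∀ L : Set (List Bool), NP.InNP L → InP L :=
  inP_of h FF kS poly_FF poly_kS (fun φ => ⟨small_gr _, finite_S φ⟩) sat_iff_S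

/-- A polynomial time algorithm for `γ_MB` of cographs puts NP into P. -/
theorem alg_D (h : PolyTimeOn {G | Small G.2 ∧ gammaMB G.2 ≠ ⊤} (fun G => gammaMB G.2)) :
    ∀ L : Set (List Bool), NP.InNP L → InP L :=
  inP_of h FD kD poly_FD poly_kD (fun φ => ⟨small_gr _, finite_D φ⟩) sat_iff_D

end Pool.Agent.Helper87.Alg
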